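import Pool.Agent.LibAC34.CG
import Pool.Agent.LibAF11.Stmt

/-!
The rules for general homomorphisms of products of elliptic curves.
-/

open WeierstrassCurve Pool.Agent.LibBH2 Pool.Agent.LibIG50 Pool.Agent.LibCHd
  Pool.Agent.LibAC34 Pool.Agent.LibAF11
open scoped Classical

namespace Pool.Agent.LibAF34

variable {k : Type} [Field k] {r : ℕ} {W : Fin r → WeierstrassCurve k}
  {Y : Prj k} {L K : Type} [Field L] [Algebra k L] [Field K] [Algebra k K] {l : L →ₐ[k] K} {D : ℕ}
  {V : Fin D → WeierstrassCurve k} {ξ : ∀ a, ((V a)⁄K).toAffine.Point}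

/-- the multiple of a homomorphism -/
noncomputable def zs {V W : WeierstrassCurve k} [W.IsElliptic] (n : ℤ) (φ : Hm V W) : Hm V W where
  f F _ _ := AddMonoidHom.mk' (fun P => n • φ.f F P) fun P Q => by rw [map_add, smul_add]
  nat F G _ _ _ _ σ P := by
    change n • φ.f G (mp σ P) = mp σ (n • φ.f F P)
    rw [map_zsmul (mp σ), φ.nat]
  sp K _ _ v P p h := spR_zsmul n (φ.sp K v P p h)

theorem zs_f {V W : WeierstrassCurve k} [W.IsElliptic] (n : ℤ) (φ : Hm V W) (F : Type) [Field F]
    [Algebra k F] (P : (V⁄F).toAffine.Point) : (zs n φ).f F P = n • φ.f F P := rfl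

/-- the matrix `N` with the column `a` replaced -/
def upM (N : Mor V W) (a : Fin D) (v : ∀ i, Hm (V a) (W i)) : Mor V W :=
  fun i => Function.update (N i) a (v i)

theorem upM_same (N : Mor V W) (a : Fin D) (v : ∀ i, Hm (V a) (W i)) (i : Fin r) :
    upM N a v i a = v i := Function.update_self _ _ _

theorem upM_ne (N : Mor V W) {a b : Fin D} (h : b ≠ a) (v : ∀ i, Hm (V a) (W i)) (i : Fin r) :
    upM N a v i b = N i b := Function.update_of_ne h _ _

theorem upM_self (N : Mor V W) (a : Fin D) : upM N a (fun i => N i a) = N := by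
  funext i
  exact Function.update_eq_self a (N i)

/-- the point depends only on the values of the homomorphisms -/
theorem pnt_congr {ξ' : ∀ a, ((V a)⁄K).toAffine.Point} {N N' : Mor V W} {g g' : Pts W}
    (u : Pnt W Y L) (h : ∀ i, constPt K (g i) + ∑ a, (N i a).f K (ξ a) =
      constPt K (g' i) + ∑ a, (N' i a).f K (ξ' a)) :
    pnt l ξ N g u = pnt l ξ' N' g' u := by
  apply pnt_ext
  · funext i
    change constPt K (g i) + ((∑ a, (N i a).f K (ξ a)) + mp l (u.z i)) =
      constPt K (g' i) + ((∑ a, (N' i a).f K (ξ' a)) + mp l (u.z i))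
    rw [← add_assoc, ← add_assoc, h]
  · rfl

theorem P_core {F : Type} [Field F] [Algebra k F] (i : F →ₐ[k] K) (l' : L →ₐ[k] F)
    (a : Fin D) (ξ' : ∀ b, b ≠ a → ((V b)⁄F).toAffine.Point) (hl : ∀ x, i (l' x) = l x)
    (hξ : ∀ b hb, mp i (ξ' b hb) = ξ b) (N : Mor V W) (g : Pts W) (u : Pnt W Y L) :
    ∃ T : Pnt W Y F, ∀ (η : ((V a)⁄K).toAffine.Point) (v : ∀ n, Hm (V a) (W n)),
        pnt l (Function.update ξ a η) (upM N a v) g u =
          Pnt.add (fun n => (v n).f K η) (T.map i) := by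
  refine ⟨Pnt.add (fun n => constPt F (g n) + ∑ b, (N n b).f F
    (if hb : b ≠ a then ξ' b hb else 0)) (u.map l'), ?_⟩
  intro η v
  apply pnt_ext
  · funext n
    have e1 : mp i (constPt F (g n) + ∑ b, (N n b).f F
        (if hb : b ≠ a then ξ' b hb else 0) + mp l' (u.z n)) =
        constPt K (g n) + ∑ b, mp i ((N n b).f F
        (if hb : b ≠ a then ξ' b hb else 0)) + mp l (u.z n) := by
      rw [map_add, HG_comp l' i l hl, map_add, mp_constPt, map_sum]
    have e2 : ∑ b, (upM N a v n b).f K (Function.update ξ a η b) =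
        (v n).f K η + ∑ b, mp i ((N n b).f F (if hb : b ≠ a then ξ' b hb else 0)) := by
      rw [← Finset.add_sum_erase Finset.univ _ (Finset.mem_univ a),
        ← Finset.add_sum_erase Finset.univ (fun b => mp i ((N n b).f F
          (if hb : b ≠ a then ξ' b hb else 0))) (Finset.mem_univ a)]
      have e3 : mp i ((N n a).f F (if hb : a ≠ a then ξ' a hb else 0)) = 0 := by
        rw [dif_neg (fun h => h rfl), map_zero, mp_zero]
      have e4 : ∀ b ∈ Finset.univ.erase a, (upM N a v n b).f K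
          (Function.update ξ a η b) = mp i ((N n b).f F
          (if hb : b ≠ a then ξ' b hb else 0)) := by
        intro b hb
        have hba : b ≠ a := Finset.ne_of_mem_erase hb
        rw [upM_ne N hba, Function.update_of_ne hba, dif_pos hba, ← (N n b).nat, hξ]
      rw [Finset.sum_congr rfl e4, e3, upM_same, Function.update_self, zero_add]
    change constPt K (g n) + ((∑ b, (upM N a v n b).f K
      (Function.update ξ a η b)) + mp l (u.z n)) =
      (v n).f K η + mp i (constPt F (g n) +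
        ∑ b, (N n b).f F (if hb : b ≠ a then ξ' b hb else 0) + mp l' (u.z n))
    rw [e1, e2]
    abel
  · funext c
    exact (hl (u.y c)).symm

theorem exists_phP {e : ℕ} (h : IsGen e l V ξ) (a : Fin D) :
    ∃ (M₀ : IntermediateField k K) (ξ' : ∀ b, b ≠ a → ((V b)⁄M₀).toAffine.Point),
      (∀ b hb, mp M₀.val (ξ' b hb) = ξ b) ∧ Gen1 M₀.val (V a) (ξ a) ∧
      ∀ (r : ℕ) (W : Fin r → WeierstrassCurve k) (Y : Prj k) (N : Mor V W) (g : Pts W)
        (u : Pnt W Y L), ∃ T : Pnt W Y M₀, ∀ (η : ((V a)⁄K).toAffine.Point)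
        (v : ∀ n, Hm (V a) (W n)), pnt l (Function.update ξ a η) (upM N a v) g u =
          Pnt.add (fun n => (v n).f K η) (T.map M₀.val) := by
  obtain ⟨M₀, l', ξ', hl, hξ, hG⟩ := exists_base h a
  exact ⟨M₀, ξ', hξ, hG, fun r W Y N g u => P_core M₀.val l' a ξ' hl hξ N g u⟩

/-- the parallelogram law in a column -/
theorem P_par [CharZero k] [IsAlgClosed k] (hW : ∀ n, (W n).IsElliptic)
    (hV : ∀ a, (V a).IsElliptic) {e : ℕ} (h : IsGen e l V ξ) (u : Pnt W Y L) (N : Mor V W)
    (g : Pts W) (a : Fin D) (v w s t : ∀ n, Hm (V a) (W n))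
    (hs : ∀ n, (s n).f K (ξ a) = (v n).f K (ξ a) + (w n).f K (ξ a))
    (ht : ∀ n, (t n).f K (ξ a) = (v n).f K (ξ a) - (w n).f K (ξ a)) :
    cls l (e + D) ξ u (upM N a s) g + cls l (e + D) ξ u (upM N a t) g =
      (2 : ℤ) • cls l (e + D) ξ u (upM N a v) g + (2 : ℤ) • cls l (e + D) ξ u (upM N a w) g := by
  obtain ⟨d, hd, hK, -⟩ := HG_dim h a
  obtain ⟨M₀, ξ', hξ, hG, H⟩ := exists_phP h a
  obtain ⟨T, hT⟩ := H r W Y N g u
  have := hV a
  have h1 := parH hW hG hK T v w
  have e1 : ∀ v : ∀ n, Hm (V a) (W n), pnt l ξ (upM N a v) g u =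
      Pnt.add (fun n => (v n).f K (ξ a)) (T.map M₀.val) := by
    intro v
    rw [← hT (ξ a) v, Function.update_eq_self]
  have a1 : cyc (pnt l ξ (upM N a s) g u) =
      cyc (Pnt.add (fun n => (v n).f K (ξ a) + (w n).f K (ξ a)) (T.map M₀.val)) := by
    rw [e1]
    congr 2
    funext n
    exact hs n
  have a2 : cyc (pnt l ξ (upM N a t) g u) =
      cyc (Pnt.add (fun n => (v n).f K (ξ a) - (w n).f K (ξ a)) (T.map M₀.val)) := by
    rw [e1]
    congr 2
    funext n
    exact ht n
  rw [← a1, ← a2, ← e1, ← e1, ← hd] at h1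
  have h3 : (QuotientAddGroup.mk' (RatEq W Y (e + D)))
      (cyc (pnt l ξ (upM N a s) g u) + cyc (pnt l ξ (upM N a t) g u) -
      2 • cyc (pnt l ξ (upM N a v) g u) -
      2 • cyc (pnt l ξ (upM N a w) g u)) = 0 := (QuotientAddGroup.eq_zero_iff _).2 h1
  rw [map_sub, map_sub, map_add, map_nsmul, map_nsmul] at h3
  have h4 : cls l (e + D) ξ u (upM N a s) g + cls l (e + D) ξ u (upM N a t) g -
      2 • cls l (e + D) ξ u (upM N a v) g -
      2 • cls l (e + D) ξ u (upM N a w) g = 0 := h3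
  rw [← sub_eq_zero, ← h4]
  abel

/-- the cycle does not change if a generic point is translated by a point over the other ones -/
theorem P_trans {e : ℕ} (h : IsGen e l V ξ) (u : Pnt W Y L) (N : Mor V W) (g : Pts W)
    (a : Fin D) :
    (∀ c : (V a).toAffine.Point,
      cyc (pnt l (Function.update ξ a (ξ a + constPt K c)) N g u) =
        cyc (pnt l ξ N g u)) ∧
    ∀ b, b ≠ a → ∀ ψ : Hm (V b) (V a),
      cyc (pnt l (Function.update ξ a (ξ a + ψ.f K (ξ b))) N g u) =
        cyc (pnt l ξ N g u) := by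
  obtain ⟨d, hd, hK, hK'⟩ := HG_dim h a
  obtain ⟨M₀, ξ', hξ, hG, H⟩ := exists_phP h a
  obtain ⟨T, hT⟩ := H r W Y N g u
  have e1 : ∀ η, pnt l (Function.update ξ a η) N g u =
      Pnt.add (fun n => (N n a).f K η) (T.map M₀.val) := by
    intro η
    have h1 := hT η (fun n => N n a)
    rwa [upM_self] at h1
  have e0 : pnt l ξ N g u = Pnt.add (fun n => (N n a).f K (ξ a)) (T.map M₀.val) := by
    rw [← e1, Function.update_eq_self]
  constructor
  · intro c
    have h2 := gen1_add hG hK' (constPt M₀ c)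
    rw [mp_constPt] at h2
    rw [e1, e0]
    exact cyc_phH hG h2 T _
  · intro b hba ψ
    have h2 := gen1_add hG hK' (ψ.f M₀ (ξ' b hba))
    rw [← ψ.nat, hξ] at h2
    rw [e1, e0]
    exact cyc_phH hG h2 T _

theorem two_smul_q {A : Type*} [AddCommGroup A] (q : ℤ → A)
    (hq : ∀ m, q (m + 1) + q (m - 1) = (2 : ℤ) • q m + (2 : ℤ) • q 1)
    (h0 : (2 : ℤ) • q 0 = 0) (m : ℤ) : (2 : ℤ) • q m = (2 : ℤ) • (m ^ 2) • q 1 := by
  have key : ∀ m : ℕ, (2 : ℤ) • q m = (2 : ℤ) • (((m : ℤ) ^ 2) • q 1) ∧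
      (2 : ℤ) • q (m + 1 : ℕ) = (2 : ℤ) • ((((m + 1 : ℕ) : ℤ) ^ 2) • q 1) := by
    intro m
    induction m with
    | zero =>
      refine ⟨?_, ?_⟩
      · rw [Nat.cast_zero, h0]
        simp
      · simp
    | succ m ih =>
      refine ⟨ih.2, ?_⟩
      have h1 := congrArg (fun x => (2 : ℤ) • x) (hq (m + 1 : ℕ))
      simp only [smul_add] at h1
      have e1 : ((m + 1 : ℕ) : ℤ) - 1 = (m : ℤ) := by push_cast; ring
      have e2 : ((m + 1 : ℕ) : ℤ) + 1 = ((m + 1 + 1 : ℕ) : ℤ) := by push_cast; ring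
      rw [e1, e2, ih.1, ih.2] at h1
      rw [eq_sub_of_add_eq h1]
      simp only [smul_smul, ← add_smul, ← sub_smul]
      congr 1
      push_cast
      ring
  have key2 : ∀ m : ℕ, (2 : ℤ) • q (-(m : ℤ)) = (2 : ℤ) • (((m : ℤ) ^ 2) • q 1) ∧
      (2 : ℤ) • q (-((m + 1 : ℕ) : ℤ)) = (2 : ℤ) • ((((m + 1 : ℕ) : ℤ) ^ 2) • q 1) := by
    intro m
    induction m with
    | zero =>
      refine ⟨?_, ?_⟩
      · rw [Nat.cast_zero, neg_zero, h0]
        simp
      · have h1 := congrArg (fun x => (2 : ℤ) • x) (hq 0)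
        simp only [smul_add, h0, smul_zero, zero_add, zero_sub] at h1
        have h2 : (2 : ℤ) • q (-1) = (2 : ℤ) • (2 : ℤ) • q 1 - (2 : ℤ) • q 1 :=
          eq_sub_of_add_eq' h1
        have e1 : (-((0 + 1 : ℕ) : ℤ)) = -1 := by norm_num
        rw [e1, h2]
        simp only [smul_smul, ← sub_smul]
        congr 1
    | succ m ih =>
      refine ⟨ih.2, ?_⟩
      have h1 := congrArg (fun x => (2 : ℤ) • x) (hq (-((m + 1 : ℕ) : ℤ)))
      simp only [smul_add] at h1
      have e1 : -((m + 1 : ℕ) : ℤ) + 1 = -(m : ℤ) := by push_cast; ring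
      have e2 : -((m + 1 : ℕ) : ℤ) - 1 = -((m + 1 + 1 : ℕ) : ℤ) := by push_cast; ring
      rw [e1, e2, ih.1, ih.2] at h1
      rw [eq_sub_of_add_eq' h1]
      simp only [smul_smul, ← add_smul, ← sub_smul]
      congr 1
      push_cast
      ring
  rcases Int.le_total 0 m with h | h
  · obtain ⟨n, rfl⟩ := Int.eq_ofNat_of_zero_le h
    exact (key n).1
  · obtain ⟨n, hn⟩ := Int.eq_ofNat_of_zero_le (neg_nonneg.2 h)
    have hm : m = -(n : ℤ) := by omega
    subst hm
    rw [neg_sq]
    exact (key2 n).1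

/-- multiplication of a column -/
theorem P_zs [CharZero k] [IsAlgClosed k] [∀ n, (W n).IsElliptic]
    (hV : ∀ a, (V a).IsElliptic) {e : ℕ} (h : IsGen e l V ξ) (u : Pnt W Y L) (N : Mor V W)
    (g : Pts W) (a : Fin D) (m : ℤ) :
    (2 : ℤ) • cls l (e + D) ξ u (upM N a (fun n => zs m (N n a))) g =
      (2 : ℤ) • m ^ 2 • cls l (e + D) ξ u N g := by
  have hq := two_smul_q (fun m => cls l (e + D) ξ u (upM N a (fun n => zs m (N n a))) g)
    (fun m => P_par inferInstance hV h u N g a _ _ _ _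
      (fun n => by rw [zs_f, zs_f, zs_f, add_smul]) (fun n => by rw [zs_f, zs_f, zs_f, sub_smul]))
    (by
      have h1 := P_par (W := W) inferInstance hV h u N g a (fun n => zs 0 (N n a))
        (fun n => zs 0 (N n a)) (fun n => zs 0 (N n a)) (fun n => zs 0 (N n a))
        (fun n => by rw [zs_f, zero_smul, add_zero]) (fun n => by rw [zs_f, zero_smul, sub_zero])
      rw [← two_zsmul] at h1
      exact left_eq_add.1 h1) m
  have h1 : cls l (e + D) ξ u (upM N a (fun n => zs 1 (N n a))) g = cls l (e + D) ξ u N g := by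
    unfold LibAF11.cls
    congr 2
    apply pnt_congr
    intro i
    congr 1
    refine Finset.sum_congr rfl fun b _ => ?_
    by_cases hb : b = a
    · subst hb
      rw [upM_same, zs_f, one_smul]
    · rw [upM_ne N hb]
  rw [h1] at hq
  exact hq

theorem cls_smul [CharZero k] [IsAlgClosed k] {e : ℕ} (h : IsGen e l V ξ)
    (hV : ∀ a, (V a).IsElliptic) {r : ℕ}
    {W : Fin r → WeierstrassCurve k} (hW : ∀ i, (W i).IsElliptic) {Y : Prj k} (n : ℤ)
    (N N' : Mor V W)
    (hN : ∀ i a (F : Type) [Field F] [Algebra k F] (P : ((V a)⁄F).toAffine.Point),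
      (N' i a).f F P = n • (N i a).f F P) (g : Pts W) (u : Pnt W Y L) :
    IsOfFinAddOrder (cls l (e + D) ξ u N' g - n ^ (2 * D) • cls l (e + D) ξ u N g) := by
  have key : ∀ S : Finset (Fin D), (2 : ℤ) • cls l (e + D) ξ u
      (fun i a => if a ∈ S then zs n (N i a) else N i a) g =
      (2 : ℤ) • n ^ (2 * S.card) • cls l (e + D) ξ u N g := by
    intro S
    induction S using Finset.induction_on with
    | empty =>
      simp only [Finset.notMem_empty, if_false, Finset.card_empty, mul_zero, pow_zero, one_smul]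
    | insert a S ha ih =>
      have h1 := P_zs hV h u (fun i a => if a ∈ S then zs n (N i a) else N i a) g a n
      rw [smul_comm, ih] at h1
      have h2 : upM (fun i a => if a ∈ S then zs n (N i a) else N i a) a
          (fun m => zs n (if a ∈ S then zs n (N m a) else N m a)) =
          fun i b => if b ∈ insert a S then zs n (N i b) else N i b := by
        funext i b
        by_cases hb : b = a
        · subst hb
          rw [upM_same, if_neg ha, if_pos (Finset.mem_insert_self _ _)]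
        · rw [upM_ne _ hb]
          simp only [Finset.mem_insert, hb, false_or]
      rw [h2] at h1
      rw [h1, Finset.card_insert_of_notMem ha, smul_comm (n ^ 2), smul_smul (n ^ 2)]
      congr 2
      ring
  have h1 := key Finset.univ
  rw [Finset.card_univ, Fintype.card_fin] at h1
  have h2 : cls l (e + D) ξ u N' g =
      cls l (e + D) ξ u (fun i a => if a ∈ Finset.univ then zs n (N i a) else N i a) g := by
    unfold LibAF11.cls
    congr 2
    apply pnt_congr
    intro i
    congr 1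
    refine Finset.sum_congr rfl fun b _ => ?_
    rw [hN, if_pos (Finset.mem_univ b), zs_f]
  rw [isOfFinAddOrder_iff_nsmul_eq_zero]
  refine ⟨2, by norm_num, ?_⟩
  have h3 : (2 : ℤ) • (cls l (e + D) ξ u N' g - n ^ (2 * D) • cls l (e + D) ξ u N g) = 0 := by
    rw [zsmul_sub, h2, h1, sub_self]
  have h4 : (2 : ℤ) • (cls l (e + D) ξ u N' g - n ^ (2 * D) • cls l (e + D) ξ u N g) =
      (2 : ℕ) • (cls l (e + D) ξ u N' g - n ^ (2 * D) • cls l (e + D) ξ u N g) := by
    rw [← natCast_zsmul]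
    rfl
  rw [← h4, h3]

end Pool.Agent.LibAF34
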