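import Pool.Agent.LibAC34.CDeg
import Pool.Agent.LibAC6.Pw
import Pool.Agent.LibAF11.Stmt

/-!
The push-forward of cycles under homomorphisms of products of elliptic curves.
-/

open WeierstrassCurve Pool.Agent.LibBH2 Pool.Agent.LibIG50 Pool.Agent.LibCHd
  Pool.Agent.LibAC34 Pool.Agent.LibAF11 Pool.Agent.LibCV6
open scoped Classical

namespace Pool.Agent.LibAF34

variable {k : Type} [Field k] {r s : ℕ} {W : Fin r → WeierstrassCurve k}
  {W' : Fin s → WeierstrassCurve k} {Y : Prj k}

section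
variable {M Ω : Type} [Field M] [Algebra k M] [Field Ω] [Algebra k Ω]

theorem img_map (f : Mor W W') (σ : M →ₐ[k] Ω) (u : Pnt W Y M) :
    img f (u.map σ) = (img f u).map σ := by
  apply LibAC34.pnt_ext
  · funext i
    change ∑ j, (f i j).f Ω (mp σ (u.z j)) = mp σ (∑ j, (f i j).f M (u.z j))
    rw [map_sum]
    exact Finset.sum_congr rfl fun j _ => (f i j).nat _ _ σ _
  · rfl

theorem img_scale (f : Mor W W') (c : M) (hc : c ≠ 0) (u : Pnt W Y M) :
    img f (Pnt.scale c hc u) = Pnt.scale c hc (img f u) := rfl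

/-- the restriction of a normalised point to its field -/
theorem exists_res {u : Pnt W Y M} (hu : Nrm u) :
    ∃ u₀ : Pnt W Y (fld u), u₀.map (fld u).val = u ∧ Nrm u₀ ∧ fld u₀ = ⊤ := by
  have h1 : ∀ i, ∃ p : ((W i)⁄(fld u)).toAffine.Point, mp (fld u).val p = u.z i := fun i =>
    exists_pt (fld u) (u.z i) (by
      rintro _ ⟨a, b, rfl⟩
      exact IntermediateField.subset_adjoin _ _ (Or.inl ⟨i, a, b, rfl⟩))
  choose z hz using h1
  let y : Fin (Y.N + 1) → fld u := fun a => ⟨u.y a, co_mem hu (Sum.inr a)⟩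
  have hy : ∀ F : MvPolynomial (Fin (Y.N + 1)) k,
      (fld u).val (MvPolynomial.aeval y F) = MvPolynomial.aeval u.y F := by
    intro F
    rw [← AlgHom.comp_apply, MvPolynomial.comp_aeval]
    rfl
  let u₀ : Pnt W Y (fld u) := ⟨z, y, by
    intro h
    apply u.y_ne
    funext a
    exact congrArg (fld u).val (congrFun h a), by
    intro F hF
    apply (fld u).val.injective
    exact ((hy F).trans (u.mem F hF)).trans (map_zero (fld u).val).symm⟩
  have h2 : u₀.map (fld u).val = u := by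
    apply LibAC34.pnt_ext
    · funext i
      exact hz i
    · rfl
  refine ⟨u₀, h2, ?_, ?_⟩
  · obtain ⟨i, h3, h4⟩ := hu
    exact ⟨i, Subtype.ext h3, fun j hj => Subtype.ext (h4 j hj)⟩
  · have h3 := fld_map' (fld u).val u₀
    rw [h2] at h3
    apply IntermediateField.map_injective (fld u).val
    rw [← h3, ← AlgHom.fieldRange_eq_map, IntermediateField.fieldRange_val]

/-- the cycle of the image depends only on the equations -/
theorem cyc_img_eq (f : Mor W W') {u : Pnt W Y M} {q : Pnt W Y Ω} (hu : Nrm u) (hq : Nrm q)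
    (hu' : fld u = ⊤) (hq' : fld q = ⊤) (h : eqs u = eqs q) :
    cyc (img f u) = cyc (img f q) := by
  obtain ⟨σ, hσ⟩ := exists_hom hu hq h
  let τ : M →ₐ[k] Ω := σ.comp ((IntermediateField.equivOfEq hu').symm.toAlgHom.comp
    IntermediateField.topEquiv.symm.toAlgHom)
  have h1 : ∀ s, τ (co u s) = co q s := by
    intro s
    rw [← hσ s]
    rfl
  have h2 : u.map τ = q := by
    apply LibCV6.pnt_ext
    intro s
    rw [co_map]
    exact h1 s
  have h3 : Function.Surjective τ := by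
    rw [← AlgHom.fieldRange_eq_top, eq_top_iff, ← hq', fld_eq_adjoin hq,
      IntermediateField.adjoin_le_iff]
    rintro _ ⟨s, rfl⟩
    exact ⟨co u s, h1 s⟩
  let ε : M ≃ₐ[k] Ω := AlgEquiv.ofBijective τ ⟨τ.injective, h3⟩
  have h4 : u.map (ε : M →ₐ[k] Ω) = q := h2
  rw [← h4, img_map, cyc_map]

end

/-- the image of the subvariety with given equations, with multiplicity -/
noncomputable def pf1 (f : Mor W W') (S : Set (MvPolynomial (Idx r Y.N) k)) : Cyc s Y :=
  if h : ∃ (M : Type) (_ : Field M) (_ : Algebra k M) (u : Pnt W Y M),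
      Nrm u ∧ fld u = ⊤ ∧ eqs u = S ∧ True then
    (@img k _ r s W W' f Y h.choose h.choose_spec.choose h.choose_spec.choose_spec.choose
      h.choose_spec.choose_spec.choose_spec.choose |>
      @cyc k _ s W' Y h.choose h.choose_spec.choose h.choose_spec.choose_spec.choose)
  else 0

theorem pf1_eq (f : Mor W W') {M : Type} [Field M] [Algebra k M] {u : Pnt W Y M} (hu : Nrm u)
    (hu' : fld u = ⊤) : pf1 (Y := Y) f (eqs u) = cyc (img f u) := by
  have h : ∃ (M' : Type) (_ : Field M') (_ : Algebra k M') (u' : Pnt W Y M'),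
      Nrm u' ∧ fld u' = ⊤ ∧ eqs u' = eqs u ∧ True := ⟨M, _, _, u, hu, hu', rfl, trivial⟩
  unfold pf1
  rw [dif_pos h]
  have h1 := h.choose_spec.choose_spec.choose_spec.choose_spec
  exact @cyc_img_eq k _ r s W W' Y h.choose M h.choose_spec.choose
    h.choose_spec.choose_spec.choose _ _ f _ u h1.1 hu h1.2.1 hu' h1.2.2.1

/-- the push-forward of cycles -/
noncomputable def pfc (f : Mor W W') (Y : Prj k) : Cyc r Y →+ Cyc s Y :=
  Finsupp.liftAddHom fun S => (smulAddHom ℤ (Cyc s Y)).flip (pf1 (Y := Y) f S)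

theorem pfc_single (f : Mor W W') (S : Set (MvPolynomial (Idx r Y.N) k)) (n : ℤ) :
    pfc f Y (Finsupp.single S n) = n • pf1 (Y := Y) f S := by
  simp [pfc]

theorem pfc_cyc (f : Mor W W') {M : Type} [Field M] [Algebra k M] (u : Pnt W Y M) :
    pfc f Y (cyc u) = cyc (img f u) := by
  obtain ⟨c, hc, hn⟩ := exists_nrm u
  rw [← cyc_scale c hc u, ← cyc_scale c hc (img f u), ← img_scale]
  generalize Pnt.scale c hc u = v at hn ⊢
  obtain ⟨u₀, h1, h2, h3⟩ := exists_res hn
  have h4 : eqs v = eqs u₀ := by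
    conv_lhs => rw [← h1]
    rw [eqs_map]
  have h5 : cyc (img f v) = Module.finrank (fld v) M • cyc (img f u₀) := by
    have h6 := cyc_map_deg (fld v).val (img f u₀)
    rw [← img_map, h1, IntermediateField.fieldRange_val] at h6
    exact h6
  rw [h5, cyc, pfc_single, h4, pf1_eq f h2 h3, natCast_zsmul]

section
variable {K : Type} [Field K] [Algebra k K] {v : Place k K}

theorem spR_sum {ι : Type} (T : Finset ι) {E : WeierstrassCurve k} [E.IsElliptic]
    (P : ι → (E⁄K).toAffine.Point) (p : ι → (E⁄(RF v)).toAffine.Point)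
    (h : ∀ i ∈ T, SpR v (P i) (p i)) : SpR v (∑ i ∈ T, P i) (∑ i ∈ T, p i) := by
  induction T using Finset.induction_on with
  | empty =>
    rw [Finset.sum_empty, Finset.sum_empty]
    exact spR_zero_iff.2 (Or.inl rfl)
  | insert a T ha ih =>
    rw [Finset.sum_insert ha, Finset.sum_insert ha]
    exact SpR_add (h a (Finset.mem_insert_self _ _))
      (ih fun i hi => h i (Finset.mem_insert_of_mem hi))

theorem spV_img (hW' : ∀ i, (W' i).IsElliptic) (f : Mor W W') {u : Pnt W Y K}
    {q : Pnt W Y (RF v)} (h : SpV v u q) : SpV v (img f u) (img f q) := by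
  refine ⟨fun i => ?_, h.2⟩
  have := hW' i
  exact spR_sum Finset.univ _ _ fun j _ => (f i j).sp K v _ _ (h.1 j)

/-- two specialisations have the same cycle -/
theorem spV_cyc {u : Pnt W Y K} {q q' : Pnt W Y (RF v)} (h : SpV v u q) (h' : SpV v u q') :
    cyc q = cyc q' := by
  obtain ⟨h1, l, hl, h2⟩ := h
  obtain ⟨h1', l', hl', h2'⟩ := h'
  obtain ⟨a, ha⟩ : ∃ a, q.y a ≠ 0 := by
    by_contra hn
    push Not at hn
    exact q.y_ne (funext hn)
  have hu : u.y a ≠ 0 := by
    intro h0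
    exact (h2 a).ne_zero ha (by rw [h0, mul_zero])
  have h3 := (h2' a).div (h2 a) ha
  rw [mul_div_mul_right _ _ hu] at h3
  have h4 : ∀ b, q'.y b = q'.y a / q.y a * q.y b := by
    intro b
    have h5 := h3.mul (h2 b)
    rw [← mul_assoc, div_mul_cancel₀ _ hl] at h5
    exact (h2' b).unique h5
  have hc : q'.y a / q.y a ≠ 0 := by
    intro h0
    apply q'.y_ne
    funext b
    rw [h4 b, h0, zero_mul]
    rfl
  have h5 : q' = Pnt.scale (q'.y a / q.y a) hc q := by
    apply LibAC34.pnt_ext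
    · funext i
      exact SpR_unique (h1' i) (h1 i)
    · funext b
      exact h4 b
  rw [h5, cyc_scale]

end

theorem isDiv_pfc (hW : ∀ i, (W i).IsElliptic) (hW' : ∀ i, (W' i).IsElliptic) (f : Mor W W')
    {d : ℕ} {c : Cyc r Y} (h : IsDiv W Y d c) : IsDiv W' Y d (pfc f Y c) := by
  obtain ⟨K, _, _, u, g, S, C, hK, hg, hS, hS', rfl⟩ := h
  refine ⟨K, _, _, img f u, g, S, fun v => pfc f Y (C v), hK, hg, ?_, ?_, ?_⟩
  · intro v hv
    obtain ⟨h1, q, h2, h3⟩ := hS v hv
    exact ⟨h1, img f q, spV_img hW' f h2, (congrArg (pfc f Y) h3).trans (pfc_cyc f q)⟩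
  · intro v hv hvg hF q' hq'
    obtain ⟨q, hq⟩ := LibAC6.SpV_exists hW v u
    rw [← spV_cyc (spV_img hW' f hq) hq', ← pfc_cyc, hS' v hv hvg hF q hq, map_zero]
  · rw [map_sum]
    exact Finset.sum_congr rfl fun v _ => by rw [map_zsmul]

theorem exists_pf [CharZero k] [IsAlgClosed k] {r s : ℕ} {W : Fin r → WeierstrassCurve k}
    {W' : Fin s → WeierstrassCurve k}
    (hW : ∀ i, (W i).IsElliptic) (hW' : ∀ i, (W' i).IsElliptic) (f : Mor W W') (Y : Prj k)
    (d : ℕ) : ∃ p : CH W Y d →+ CH W' Y d, ∀ (M : Type) [Field M] [Algebra k M]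
      (u : Pnt W Y M), FunF k d M →
      p (QuotientAddGroup.mk (cyc u)) = QuotientAddGroup.mk (cyc (img f u)) := by
  refine ⟨QuotientAddGroup.map (RatEq W Y d) (RatEq W' Y d) (pfc f Y) ?_, ?_⟩
  · unfold RatEq
    rw [AddSubgroup.closure_le]
    intro c hc
    exact AddSubgroup.subset_closure (isDiv_pfc hW hW' f hc)
  · intro M _ _ u _
    rw [← pfc_cyc]
    rfl

end Pool.Agent.LibAF34
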