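import Pool.Agent.LibAC36.Ker
import Pool.Agent.LibAC34.CDeg
import Pool.Agent.LibAF11.Stmt

/-!
The function field of the image of a product of elliptic curves under a product of isogenies.
-/

open WeierstrassCurve Pool.Agent.LibBH2 Pool.Agent.LibIG50 Pool.Agent.LibCHd
  Pool.Agent.LibAC34 Pool.Agent.LibAF11 Pool.Agent.LibAC36
open scoped Classical

namespace Pool.Agent.LibAF34

section funF
variable {k : Type} [Field k] {K : Type} [Field K] [Algebra k K]

theorem funF_fg {d : ℕ} (h : FunF k d K) :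
    ∃ S : Finset K, IntermediateField.adjoin k (S : Set K) = ⊤ := by
  obtain ⟨t, -, hf⟩ := h
  obtain ⟨T, hT⟩ := hf.fg_top
  refine ⟨Finset.univ.image t ∪ T, ?_⟩
  have h1 : IntermediateField.adjoin k (Set.range t) ≤
      IntermediateField.adjoin k ((Finset.univ.image t ∪ T : Finset K) : Set K) := by
    apply IntermediateField.adjoin.mono
    rintro _ ⟨i, rfl⟩
    simp
  rw [eq_top_iff]
  intro x _
  have hx : x ∈ Submodule.span (IntermediateField.adjoin k (Set.range t)) (T : Set K) := by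
    rw [hT]
    trivial
  induction hx using Submodule.span_induction with
  | mem x hx => exact IntermediateField.subset_adjoin _ _ (by simp [Finset.mem_coe.1 hx])
  | zero => exact zero_mem _
  | add x y _ _ hx hy => exact add_mem (hx trivial) (hy trivial)
  | smul a x _ hx => exact mul_mem (h1 a.2) (hx trivial)

theorem funF_fin {d : ℕ} (h : FunF k d K) {A : Type} [Field A] [Algebra k A] [Algebra A K]
    [IsScalarTower k A K] [Algebra.IsAlgebraic A K] : FiniteDimensional A K := by
  obtain ⟨S, hS⟩ := funF_fg h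
  have h1 : IntermediateField.adjoin A (S : Set K) = ⊤ := by
    have h2 : IntermediateField.adjoin k (S : Set K) ≤
        (IntermediateField.adjoin A (S : Set K)).restrictScalars k := by
      rw [IntermediateField.adjoin_le_iff]
      intro z hz
      exact IntermediateField.subset_adjoin A _ hz
    rw [hS] at h2
    rw [eq_top_iff]
    intro z _
    exact h2 (IntermediateField.mem_top (x := z))
  have h3 : FiniteDimensional A (IntermediateField.adjoin A (S : Set K)) :=
    IntermediateField.finiteDimensional_adjoin fun x _ =>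
      (Algebra.IsAlgebraic.isAlgebraic x).isIntegral
  rw [h1] at h3
  exact Module.Finite.equiv (IntermediateField.topEquiv (F := A) (E := K)).toLinearEquiv

theorem fin_left {d : ℕ} (h : FunF k d K) (K' : IntermediateField k K)
    [Algebra.IsAlgebraic K' K] (F₀ : IntermediateField k K') [Algebra.IsAlgebraic F₀ K'] :
    FiniteDimensional F₀ K' := by
  have h7 : Algebra.IsAlgebraic F₀ K := Algebra.IsAlgebraic.trans F₀ K' K
  have h8 : FiniteDimensional F₀ K := funF_fin h
  exact FiniteDimensional.left F₀ K' K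

theorem funF_sub {d : ℕ} (h : FunF k d K) (K' : IntermediateField k K)
    [Algebra.IsAlgebraic K' K] : FunF k d K' := by
  have h1 : Algebra.trdeg k K' = d := by
    have h2 := trdeg_add_eq k K' (A := K)
    rw [(trdeg_eq_zero_iff (R := K') (A := K)).2 inferInstance, add_zero, h.trdeg] at h2
    exact h2
  obtain ⟨s, hs⟩ := exists_isTranscendenceBasis k K'
  have h3 : Cardinal.mk s = d := by rw [hs.cardinalMk_eq_trdeg, h1]
  have h4 : Nonempty (Fin d ≃ s) := by
    rw [← Cardinal.mk_fin] at h3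
    exact Cardinal.eq.1 h3.symm
  obtain ⟨ε⟩ := h4
  have h5 : Set.range (fun i => (ε i : K')) = s := by
    ext x
    constructor
    · rintro ⟨i, rfl⟩
      exact (ε i).2
    · intro hx
      exact ⟨ε.symm ⟨x, hx⟩, by simp⟩
  refine ⟨fun i => ε i, ?_, ?_⟩
  · exact hs.1.comp ε ε.injective
  · rw [h5]
    have h6 : Algebra.IsAlgebraic (IntermediateField.adjoin k s) K' := by
      have := hs.isAlgebraic_field
      rwa [Subtype.range_coe] at this
    let F₀ := IntermediateField.adjoin k s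
    exact fin_left h K' (IntermediateField.adjoin k s)

end funF

variable {k : Type} [Field k] [CharZero k] [IsAlgClosed k] {D : ℕ}
  {V : Fin D → WeierstrassCurve k} {L K : Type} [Field L] [Algebra k L] [Field K] [Algebra k K]
  {l : L →ₐ[k] K} {ξ : ∀ a, ((V a)⁄K).toAffine.Point}

theorem coo_alg {E E' : WeierstrassCurve k} [E.IsElliptic] [E'.IsElliptic] (φ : Hm E E')
    (hφ : ∃ p : E.toAffine.Point, φ.k0 p ≠ 0) (i : KE E →ₐ[k] K) (K' : IntermediateField k K)
    (hK' : coo (φ.f K (mp i (genPt E))) ⊆ K') (c : K) (hc : c ∈ coo (mp i (genPt E))) :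
    IsAlgebraic K' c := by
  obtain ⟨τ, hτ⟩ := exists_tau (nc_of_ne hφ)
  let _ : Algebra (KE E') (KE E) := τ.toRingHom.toAlgebra
  have hst : IsScalarTower k (KE E') (KE E) := IsScalarTower.of_algebraMap_eq fun c =>
    (τ.commutes c).symm
  have h1 : Algebra.trdeg k (KE E') = 1 := by simpa using (funF_KE (E := E')).trdeg
  have h2 : Algebra.trdeg k (KE E) = 1 := by simpa using (funF_KE (E := E)).trdeg
  have halg : Algebra.IsAlgebraic (KE E') (KE E) := alg_of_trdeg h1 h2
  rw [coo_mp] at hc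
  obtain ⟨c₀, -, rfl⟩ := hc
  have h3 : ∀ x, i (τ x) ∈ K' := by
    have h4 : (i.comp τ).fieldRange ≤ K' := by
      rw [AlgHom.fieldRange_eq_map, ← adjoin_genPt (k := k) (E := E'),
        IntermediateField.adjoin_map, ← coo_mp, IntermediateField.adjoin_le_iff]
      have h5 : mp (i.comp τ) (genPt E') = φ.f K (mp i (genPt E)) := by
        rw [← LibCV66.mp_comp, hτ, φ.nat]
      rw [h5]
      exact hK'
    exact fun x => h4 ⟨x, rfl⟩
  let ρ : KE E' →ₐ[k] K' := (i.comp τ).codRestrict K'.toSubalgebra h3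
  obtain ⟨p, hp, hp0⟩ := Algebra.IsAlgebraic.isAlgebraic (R := KE E') c₀
  refine ⟨p.map ρ.toRingHom, (Polynomial.map_ne_zero_iff ρ.toRingHom.injective).2 hp, ?_⟩
  rw [Polynomial.aeval_def, Polynomial.eval₂_map]
  have h6 := congrArg i.toRingHom hp0
  rw [Polynomial.aeval_def, Polynomial.hom_eval₂, map_zero] at h6
  exact h6

omit [CharZero k] [IsAlgClosed k] in
theorem pnt_sub {V' : Fin D → WeierstrassCurve k} (ψ : ∀ a, Hm (V a) (V' a)) {F : Type} [Field F]
    [Algebra k F] (i : F →ₐ[k] K) (l' : L →ₐ[k] F) (hl : ∀ x, i (l' x) = l x)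
    (ξ' : ∀ a, ((V' a)⁄F).toAffine.Point) (hξ : ∀ a, mp i (ξ' a) = (ψ a).f K (ξ a)) {r : ℕ}
    {W : Fin r → WeierstrassCurve k} {Y : Prj k} (N : Mor V' W) (g : Pts W) (u : Pnt W Y L) :
    pnt l ξ (fun i a => (N i a).comp (ψ a)) g u = (pnt l' ξ' N g u).map i := by
  apply LibAC34.pnt_ext
  · funext n
    change constPt K (g n) + ((∑ a, (N n a).f K ((ψ a).f K (ξ a))) + mp l (u.z n)) =
      mp i (constPt F (g n) + ((∑ a, (N n a).f F (ξ' a)) + mp l' (u.z n)))
    rw [map_add, map_add, map_sum, mp_constPt, HG_comp l' i l hl]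
    congr 2
    refine Finset.sum_congr rfl fun a _ => ?_
    rw [← (N n a).nat, hξ]
  · funext c
    exact (hl (u.y c)).symm

theorem gen_sub {e : ℕ} (h : IsGen e l V ξ) (hV : ∀ a, (V a).IsElliptic)
    (V' : Fin D → WeierstrassCurve k) (hV' : ∀ a, (V' a).IsElliptic)
    (ψ : ∀ a, Hm (V a) (V' a)) (hψ : ∀ a, ∃ p : (V a).toAffine.Point, (ψ a).k0 p ≠ 0) :
    ∃ (K' : IntermediateField k K) (l' : L →ₐ[k] K') (ξ' : ∀ a, ((V' a)⁄K').toAffine.Point)
      (δ : ℕ), (∀ x, K'.val (l' x) = l x) ∧ (∀ a, mp K'.val (ξ' a) = (ψ a).f K (ξ a)) ∧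
      IsGen e l' V' ξ' ∧ 0 < δ ∧
      ∀ (r : ℕ) (W : Fin r → WeierstrassCurve k) (Y : Prj k) (N : Mor V' W) (g : Pts W)
        (u : Pnt W Y L), cyc (pnt l ξ (fun i a => (N i a).comp (ψ a)) g u) =
          δ • cyc (pnt l' ξ' N g u) := by
  obtain ⟨K', hK'⟩ : ∃ K' : IntermediateField k K, K' = IntermediateField.adjoin k
    (Set.range l ∪ {c | ∃ a i j, c = hc ((ψ a).f K (ξ a)) i / hc ((ψ a).f K (ξ a)) j}) := ⟨_, rfl⟩
  have hl : ∀ x, l x ∈ K' := fun x => by
    rw [hK']
    exact IntermediateField.subset_adjoin _ _ (Or.inl ⟨x, rfl⟩)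
  have hco : ∀ a, coo ((ψ a).f K (ξ a)) ⊆ K' := by
    rintro a _ ⟨i, j, rfl⟩
    rw [hK']
    exact IntermediateField.subset_adjoin _ _ (Or.inr ⟨a, i, j, rfl⟩)
  choose ξ' hξ' using fun a => exists_pt K' ((ψ a).f K (ξ a)) (hco a)
  let l' : L →ₐ[k] K' := l.codRestrict K'.toSubalgebra hl
  have hl' : ∀ x, K'.val (l' x) = l x := fun _ => rfl
  have halg : Algebra.IsAlgebraic K' K := by
    have h1 : (⊤ : IntermediateField k K) ≤
        (algebraicClosure K' K).restrictScalars k := by
      rw [← h.gen, IntermediateField.adjoin_le_iff]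
      rintro c (⟨x, rfl⟩ | ⟨a, i, j, rfl⟩)
      · exact mem_algebraicClosure_iff.2 (isAlgebraic_algebraMap (R := K') (⟨l x, hl x⟩ : K'))
      · refine mem_algebraicClosure_iff.2 ?_
        have := hV a
        have := hV' a
        obtain ⟨M₀, -, -, -, -, hG⟩ := exists_base h a
        obtain ⟨i₁, hi, -⟩ := gen1_cps M₀.val (ξ a) hG
        refine coo_alg (ψ a) (hψ a) i₁ K' ?_ _ ?_
        · rw [hi]
          exact hco a
        · rw [hi]
          exact ⟨i, j, rfl⟩
    exact ⟨fun x => mem_algebraicClosure_iff.1 (h1 (IntermediateField.mem_top (x := x)))⟩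
  have hfin : FiniteDimensional K' K := funF_fin h.dim
  refine ⟨K', l', ξ', Module.finrank K' K, hl', hξ', ⟨h.dimL, funF_sub h.dim K', ?_⟩,
    Module.finrank_pos, ?_⟩
  · apply IntermediateField.map_injective K'.val
    rw [IntermediateField.adjoin_map, ← AlgHom.fieldRange_eq_map,
      IntermediateField.fieldRange_val]
    conv_rhs => rw [hK']
    congr 1
    rw [Set.image_union]
    congr 1
    · ext c
      constructor
      · rintro ⟨_, ⟨x, rfl⟩, rfl⟩
        exact ⟨x, rfl⟩
      · rintro ⟨x, rfl⟩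
        exact ⟨_, ⟨x, rfl⟩, rfl⟩
    · ext c
      constructor
      · rintro ⟨_, ⟨a, i, j, rfl⟩, rfl⟩
        refine ⟨a, i, j, ?_⟩
        rw [← hξ', map_div₀, ← hc_mp, ← hc_mp]
      · rintro ⟨a, i, j, rfl⟩
        refine ⟨_, ⟨a, i, j, rfl⟩, ?_⟩
        rw [← hξ', map_div₀, ← hc_mp, ← hc_mp]
  · intro r W Y N g u
    have h1 := pnt_sub ψ K'.val l' hl' ξ' hξ' N g u
    rw [h1, cyc_map_deg, IntermediateField.fieldRange_val]

end Pool.Agent.LibAF34
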